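import Mathlib
import Pool.Agent.Lib.helper12.Idem

namespace Pool.Agent.H.MP_b29e0e_al

open Matrix

section alg
variable {K R : Type} [Field K] [Ring R] [Algebra K R]

def Wy (K : Type) {R : Type} [Field K] [Ring R] [Algebra K R] (x y : R) : Prop :=
  (4 : K) • (x * y) - y * x = (3 : K) • (1 : R)

def T (t : K) (g p : R) : R :=
  (16 : K) • (g * g * g * p) - (84 : K) • (g * g * p * g) + (84 : K) • (g * p * g * g)
    - (16 : K) • (p * g * g * g) + (225 * t) • (g * p - p * g)

theorem tz (a b : K) (x y z : R) (hxy : Wy K x y) (hyz : Wy K y z) (hs : T (0 : K) x z = 0) :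
    T (a * b) (a • x + b • y) z = 0 := by
  unfold Wy T at *
  linear_combination (norm := (simp only [mul_add, add_mul, mul_sub, sub_mul, smul_mul_assoc,
    mul_smul_comm, mul_assoc, mul_one, one_mul]; module))
    (a*a*a) • hs + (-5*a*a*b) • (z * hxy * x) + (-4*a*a*b) • (z * x * hxy)
     + (21*a*a*b) • (hyz * x * x) + (84*a*a*b) • (hxy * z * x) + (-16*a*a*b) • (hxy * x * z)
     + (21*a*a*b) • (x * z * hxy) + (-105*a*a*b) • (x * hyz * x) + (-80*a*a*b) • (x * hxy * z)
     + (84*a*a*b) • (x * x * hyz) + (16*a*b*b) • (z * y * hxy) + (-4*a*b*b) • (z * hxy * y)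
     + (84*a*b*b) • (hyz * x * y) + (-63*a*b*b) • (hyz) + (-63*a*b*b) • (y * z * hxy)
     + (-21*a*b*b) • (y * hyz * x) + (63*a*b*b) • (hxy) + (-16*a*b*b) • (y * hxy * z)
     + (-80*a*b*b) • (hxy * y * z) + (84*a*b*b) • (hxy * z * y) + (-84*a*b*b) • (x * hyz * y)
     + (84*a*b*b) • (x * y * hyz) + (16*b*b*b) • (hyz * y * y) + (-20*b*b*b) • (y * hyz * y)
     + (4*b*b*b) • (y * y * hyz)

theorem tw (a b : K) (x y z : R) (hxy : Wy K x y) (hzx : Wy K z x) (hs : T (0 : K) y z = 0) :
    T (a * b) (a • x + b • y) z = 0 := by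
  unfold Wy T at *
  linear_combination (norm := (simp only [mul_add, add_mul, mul_sub, sub_mul, smul_mul_assoc,
    mul_smul_comm, mul_assoc, mul_one, one_mul]; module))
    (-4*a*a*a) • (hzx * x * x) + (20*a*a*a) • (x * hzx * x) + (-16*a*a*a) • (x * x * hzx)
     + (16*a*a*b) • (z * hxy * x) + (80*a*a*b) • (z * x * hxy) + (-84*a*a*b) • (hzx * x * y)
     + (21*a*a*b) • (y * hzx * x) + (63*a*a*b) • (hxy * z * x) + (63*a*a*b) • (hzx)
     + (-63*a*a*b) • (hxy) + (-16*a*a*b) • (hxy * x * z) + (-84*a*a*b) • (x * z * hxy)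
     + (84*a*a*b) • (x * hzx * y) + (-84*a*a*b) • (x * y * hzx) + (4*a*a*b) • (x * hxy * z)
     + (16*a*b*b) • (z * y * hxy) + (80*a*b*b) • (z * hxy * y) + (-84*a*b*b) • (hzx * y * y)
     + (-84*a*b*b) • (y * z * hxy) + (105*a*b*b) • (y * hzx * y) + (-21*a*b*b) • (hxy * z * y)
     + (-21*a*b*b) • (y * y * hzx) + (5*a*b*b) • (y * hxy * z) + (4*a*b*b) • (hxy * y * z)
     + (b*b*b) • hs

theorem tlin (t a b c : K) (g z w : R) (hz : T t g z = 0) (hw : T t g w = 0) :
    T t g (a • z + b • w + c • (1 : R)) = 0 := by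
  unfold T at *
  linear_combination (norm := (simp only [mul_add, add_mul, mul_sub, sub_mul, smul_mul_assoc,
    mul_smul_comm, mul_assoc, mul_one, one_mul]; module)) a • hz + b • hw

end alg

variable {K : Type} [Field K] [CharZero K]

def D (c : K) : Matrix (Fin 4) (Fin 4) K := diagonal ![64 - c, 16 - c, 4 - c, 1 - c]

theorem step1 (t c : K) (B : Matrix (Fin 4) (Fin 4) K) (h1 : B 0 1 ≠ 0) (h2 : B 1 2 ≠ 0)
    (h : T t (D c) B = 0) : c = 0 ∧ t = 0 := by
  have e1 := congrFun (congrFun h 0) 1
  have e2 := congrFun (congrFun h 1) 2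
  simp only [T, D, diagonal_mul_diagonal, Matrix.add_apply, Matrix.sub_apply, Matrix.smul_apply,
    diagonal_mul, mul_diagonal, Matrix.zero_apply, smul_eq_mul] at e1 e2
  simp at e1 e2
  have f1 : 16 * ((64 - c) ^ 2 + (16 - c) ^ 2) - 68 * (64 - c) * (16 - c) + 225 * t = 0 := by
    apply mul_left_cancel₀ h1
    linear_combination (1 / 48 : K) * e1
  have f2 : 16 * ((4 - c) ^ 2 + (16 - c) ^ 2) - 68 * (4 - c) * (16 - c) + 225 * t = 0 := by
    apply mul_left_cancel₀ h2
    linear_combination (1 / 12 : K) * e2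
  have hc : c = 0 := by linear_combination (1 / 2160 : K) * (f1 - f2)
  subst hc
  exact ⟨rfl, by linear_combination (1 / 225 : K) * f1⟩

theorem core (a a' b' c' : K) (B y M w : Matrix (Fin 4) (Fin 4) K) (ha : a ≠ 0)
    (h1 : (4 : K) • (D (0 : K) * y) - y * D (0 : K) = (3 * a) • 1)
    (h2 : (4 : K) • (w * D (0 : K)) - D (0 : K) * w = (3 * a) • 1)
    (hB : B = M + b' • w + c' • 1)
    (h3 : (4 : K) • (M * w) - w * M = (3 * a') • 1)
    (h4 : (4 : K) • (y * M) - M * y = (3 * a') • 1)
    (b00 : B 0 0 = 0) (b11 : B 1 1 = 0) (b22 : B 2 2 = 0) (b02 : B 0 2 = 0) (b03 : B 0 3 = 0)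
    (b13 : B 1 3 = 0) (b01 : B 0 1 ≠ 0) (b12 : B 1 2 ≠ 0) : False := by
  have y' := fun i j => congrFun (congrFun h1 i) j
  have w' := fun i j => congrFun (congrFun h2 i) j
  have B' := fun i j => congrFun (congrFun hB i) j
  simp only [D, Matrix.add_apply, Matrix.sub_apply, Matrix.smul_apply,
    diagonal_mul, mul_diagonal, smul_eq_mul] at y' w' B'
  have y00 : y 0 0 = a / 64 := by have := y' 0 0; simp at this; linear_combination this / 192
  have y11 : y 1 1 = a / 16 := by have := y' 1 1; simp at this; linear_combination this / 48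
  have y01 : y 0 1 = 0 := by have := y' 0 1; simp at this; linear_combination this / 240
  have y02 : y 0 2 = 0 := by have := y' 0 2; simp at this; linear_combination this / 252
  have y03 : y 0 3 = 0 := by have := y' 0 3; simp at this; linear_combination this / 255
  have y12 : y 1 2 = 0 := by have := y' 1 2; simp at this; linear_combination this / 60
  have y13 : y 1 3 = 0 := by have := y' 1 3; simp at this; linear_combination this / 63
  have w00 : w 0 0 = a / 64 := by have := w' 0 0; simp at this; linear_combination this / 192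
  have w11 : w 1 1 = a / 16 := by have := w' 1 1; simp at this; linear_combination this / 48
  have w22 : w 2 2 = a / 4 := by have := w' 2 2; simp at this; linear_combination this / 12
  have w02 : w 0 2 = 0 := by have := w' 0 2; simp at this; linear_combination this / (-48)
  have w03 : w 0 3 = 0 := by have := w' 0 3; simp at this; linear_combination this / (-60)
  have w13 : w 1 3 = 0 := by have := w' 1 3; simp at this; linear_combination this / (-12)
  have w10 : w 1 0 = 0 := by have := w' 1 0; simp at this; linear_combination this / 240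
  have m00 : M 0 0 = - b' * a / 64 - c' := by
    have := B' 0 0; simp [w00, b00] at this; linear_combination -this
  have m11 : M 1 1 = - b' * a / 16 - c' := by
    have := B' 1 1; simp [w11, b11] at this; linear_combination -this
  have m22 : M 2 2 = - b' * a / 4 - c' := by
    have := B' 2 2; simp [w22, b22] at this; linear_combination -this
  have m02 : M 0 2 = 0 := by have := B' 0 2; simp [w02, b02] at this; exact this.symm
  have m03 : M 0 3 = 0 := by have := B' 0 3; simp [w03, b03] at this; exact this.symm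
  have m13 : M 1 3 = 0 := by have := B' 1 3; simp [w13, b13] at this; exact this.symm
  have m01 : B 0 1 = M 0 1 + b' * w 0 1 := by simpa using B' 0 1
  have m12 : B 1 2 = M 1 2 + b' * w 1 2 := by simpa using B' 1 2
  have e01 := congrFun (congrFun h3 0) 1
  have e12 := congrFun (congrFun h3 1) 2
  have e02 := congrFun (congrFun h3 0) 2
  have f00 := congrFun (congrFun h4 0) 0
  have f11 := congrFun (congrFun h4 1) 1
  simp only [Matrix.sub_apply, Matrix.smul_apply, Matrix.mul_apply, Fin.sum_univ_four,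
    smul_eq_mul, y00, y11, y01, y02, y03, y12, y13, w00, w11, w22, w02, w03, w13, w10,
    m00, m11, m22, m02, m03, m13] at e01 e12 e02 f00 f11
  simp only [Matrix.one_apply] at e01 e12 e02 f00 f11
  simp at e01 e12 e02 f00 f11
  have g1 : M 0 1 * a = 64 / 5 * c' * w 0 1 := by linear_combination (64 / 15 : K) * e01
  have g2 : M 1 2 * a = 16 / 5 * c' * w 1 2 := by linear_combination (16 / 15 : K) * e12
  have n1 : w 0 1 ≠ 0 := fun h => b01 (by
    rw [h, mul_zero] at g1
    rw [m01, h, (mul_eq_zero.1 g1).resolve_right ha]; simp)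
  have n2 : w 1 2 ≠ 0 := fun h => b12 (by
    rw [h, mul_zero] at g2
    rw [m12, h, (mul_eq_zero.1 g2).resolve_right ha]; simp)
  have hc : c' = 0 := by
    have : c' * (w 0 1 * w 1 2) = 0 := by
      linear_combination (a / 48) * e02 - (w 1 2 / 12) * g1 + (w 0 1 / 48) * g2
    exact (mul_eq_zero.1 this).resolve_right (mul_ne_zero n1 n2)
  subst hc
  have z1 : M 0 1 = 0 := (mul_eq_zero.1 (by linear_combination g1 : M 0 1 * a = 0)).resolve_right ha
  have z2 : M 1 2 = 0 := (mul_eq_zero.1 (by linear_combination g2 : M 1 2 * a = 0)).resolve_right ha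
  rw [z1] at f00 f11
  rw [z2] at f11
  have hb : b' * (a * a) = 0 := by linear_combination (4096 / 45 : K) * (f00 - f11)
  have hb' : b' = 0 := (mul_eq_zero.1 hb).resolve_right (mul_ne_zero ha ha)
  apply b01
  rw [m01, z1, hb']; simp

def A0 : Matrix (Fin 4) (Fin 4) ℚ := !![64, 0, 0, 0; 0, 16, 0, 0; 0, 0, 4, 0; 0, 0, 0, 1]
def B0 : Matrix (Fin 4) (Fin 4) ℚ := !![0, 21, 0, 0; 1, 0, 10, 0; 0, 10, 0, 21; 0, 0, 16, 0]

theorem final (x y z w : Matrix (Fin 4) (Fin 4) K) (hxy : Wy K x y) (hyz : Wy K y z)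
    (hzw : Wy K z w) (hwx : Wy K w x) (s1 : T (0 : K) x z = 0) (s2 : T (0 : K) y w = 0)
    (a b c a' b' c' : K) (hA : A0.map (algebraMap ℚ K) = a • x + b • y + c • 1)
    (hB : B0.map (algebraMap ℚ K) = a' • z + b' • w + c' • 1) : False := by
  have hD : D c = a • x + b • y := by
    rw [← add_left_inj (c • (1 : Matrix (Fin 4) (Fin 4) K)), ← hA]
    ext i j
    fin_cases i <;> fin_cases j <;> simp [D, A0]
  have t := tlin (a * b) a' b' c' _ z w (tz a b x y z hxy hyz s1) (tw a b x y w hxy hwx s2)
  rw [← hD, ← hB] at t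
  obtain ⟨hc, hab⟩ := step1 _ _ _ (by simp [B0]) (by simp [B0]) t
  subst hc
  have D0 : D (0 : K) ≠ 0 := fun h => by
    have := congrFun (congrFun h 0) 0
    simp [D] at this
  unfold Wy at *
  rcases mul_eq_zero.1 hab with h | h
  · subst h
    rw [zero_smul, zero_add] at hD
    have hb : b ≠ 0 := fun h => D0 (by rw [hD, h, zero_smul])
    have dt : (D (0 : K))ᵀ = D 0 := diagonal_transpose _
    have hD' : D (0 : K) = b • yᵀ := by rw [← dt, hD, transpose_smul]
    have k1 := congrArg transpose hxy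
    have k2 := congrArg transpose hyz
    have k3 := congrArg transpose hzw
    have k4 := congrArg transpose hwx
    have k5 := congrArg transpose hB
    simp only [transpose_sub, transpose_add, transpose_smul, transpose_mul, transpose_one]
      at k1 k2 k3 k4 k5
    refine core b b' a' c' (B0.map (algebraMap ℚ K))ᵀ xᵀ (b' • wᵀ) zᵀ hb ?_ ?_ ?_ ?_ ?_
      (by simp [B0]) (by simp [B0]) (by simp [B0]) (by simp [B0]) (by simp [B0]) (by simp [B0])
      (by simp [B0]) (by simp [B0])
    · rw [hD']
      linear_combination (norm := (simp only [smul_mul_assoc, mul_smul_comm]; module)) b • k1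
    · rw [hD']
      linear_combination (norm := (simp only [smul_mul_assoc, mul_smul_comm]; module)) b • k2
    · rw [k5]; module
    · linear_combination (norm := (simp only [smul_mul_assoc, mul_smul_comm]; module)) b' • k3
    · linear_combination (norm := (simp only [smul_mul_assoc, mul_smul_comm]; module)) b' • k4
  · subst h
    rw [zero_smul, add_zero] at hD
    have ha : a ≠ 0 := fun h => D0 (by rw [hD, h, zero_smul])
    refine core a a' b' c' (B0.map (algebraMap ℚ K)) y (a' • z) w ha ?_ ?_ hB ?_ ?_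
      (by simp [B0]) (by simp [B0]) (by simp [B0]) (by simp [B0]) (by simp [B0]) (by simp [B0])
      (by simp [B0]) (by simp [B0])
    · rw [hD]
      linear_combination (norm := (simp only [smul_mul_assoc, mul_smul_comm]; module)) a • hxy
    · rw [hD]
      linear_combination (norm := (simp only [smul_mul_assoc, mul_smul_comm]; module)) a • hwx
    · linear_combination (norm := (simp only [smul_mul_assoc, mul_smul_comm]; module)) a' • hzw
    · linear_combination (norm := (simp only [smul_mul_assoc, mul_smul_comm]; module)) a' • hyz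

open Pool.Agent.Lib.helper12.Idem

def θ : Fin 4 → ℚ := ![64, 16, 4, 1]
def φ : Fin 4 → ℚ := ![21, 4, -4, -21]
def E (i : Fin 4) : Matrix (Fin 4) (Fin 4) ℚ := Matrix.single i i 1
def F : Fin 4 → Matrix (Fin 4) (Fin 4) ℚ :=
  ![!![1/170, 21/170, 21/85, 21/85; 1/170, 21/170, 21/85, 21/85; 1/85, 21/85, 42/85, 42/85;
      16/1785, 16/85, 32/85, 32/85],
    !![42/85, 168/85, -21/85, -441/340; 8/85, 32/85, -4/85, -21/85; -1/85, -4/85, 1/170, 21/680;
      -4/85, -16/85, 2/85, 21/170],
    !![42/85, -168/85, -21/85, 441/340; -8/85, 32/85, 4/85, -21/85; -1/85, 4/85, 1/170, -21/680;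
      4/85, -16/85, -2/85, 21/170],
    !![1/170, -21/170, 21/85, -21/85; -1/170, 21/170, -21/85, 21/85; 1/85, -21/85, 42/85, -42/85;
      -16/1785, 16/85, -32/85, 32/85]]
def p : Fin 4 → List (ℚ × List Bool) := ![[(1, [])],
    [(1, [false])],
    [(-21/10, []), (1/10, [false, false])],
    [(-121/160, [false]), (1/160, [false, false, false])]]
def q : Fin 4 → List (ℚ × List Bool) := ![[(1, [])],
    [(1/21, [false])],
    [(-1/10, []), (1/210, [false, false])],
    [(-121/4410, [false]), (1/4410, [false, false, false])]]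
def e : List (ℚ × List Bool) := [(1/181440, [true, true, true]), (-1/8640, [true, true]),
  (1/2160, [true]), (-1/2835, [])]

theorem okA : ok A0 θ E := by unfold ok; decide +kernel
theorem okB : ok B0 φ F := by unfold ok; decide +kernel

theorem irr (W : Submodule K (Fin 4 → K)) (h1 : ∀ v ∈ W, fK K 4 A0 v ∈ W)
    (h2 : ∀ v ∈ W, fK K 4 B0 v ∈ W) : W = ⊥ ∨ W = ⊤ :=
  irred K A0 B0 p q e (fun i => Matrix.single i 0 1) (fun j => Matrix.single 0 j 1)
    (by decide +kernel) (by decide +kernel) (by decide +kernel) W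
    (by rintro _ ⟨v, hv, rfl⟩; exact h1 v hv) (by rintro _ ⟨v, hv, rfl⟩; exact h2 v hv)

theorem r1 : A0 ^ 2 * B0 - (17 / 4 : ℚ) • (A0 * B0 * A0) + B0 * A0 ^ 2 = 0 := by
  rw [pow_two]; decide +kernel
theorem r2 : B0 ^ 2 * A0 - (17 / 4 : ℚ) • (B0 * A0 * B0) + A0 * B0 ^ 2 - (100 : ℚ) • A0 =
    (-5140 : ℚ) • 1 := by
  rw [pow_two]; decide +kernel

end Pool.Agent.H.MP_b29e0e_al
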